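import Pool.Agent.Work.MP_602313_nt.Bd.B06

/-!
Module B, item BImage (helper30).
-/

open scoped MatrixGroups Polynomial
open CongruenceSubgroup

noncomputable section

namespace Gou

namespace BImageAux

open H30

theorem symAct_sub' {R : Type*} [CommRing R] (n : ℕ) (g : Matrix (Fin 2) (Fin 2) ℤ) (f f' : R[X]) :
    symAct n g (f - f') = symAct n g f - symAct n g f' := by
  rw [sub_eq_add_neg, symAct_add, symAct_neg', sub_eq_add_neg]

/-- The action preserves divisibility. -/
theorem dvdP_symAct {R : Type*} [CommRing R] (n : ℕ) (g : Matrix (Fin 2) (Fin 2) ℤ) {q : R}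
    {f : R[X]} (h : dvdP q f) : dvdP q (symAct n g f) := by
  intro i
  rw [symAct, Polynomial.finsetSum_coeff]
  apply Finset.dvd_sum
  intro k _
  rw [mul_assoc, Polynomial.coeff_C_mul]
  exact Dvd.dvd.mul_right (h k) _

theorem dvdP_add {R : Type*} [CommRing R] {q : R} {f g : R[X]} (h : dvdP q f) (h' : dvdP q g) :
    dvdP q (f + g) := fun i => by
  rw [Polynomial.coeff_add]; exact dvd_add (h i) (h' i)

theorem dvdP_sum {R ι : Type*} [CommRing R] {q : R} (s : Finset ι) {f : ι → R[X]}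
    (h : ∀ i ∈ s, dvdP q (f i)) : dvdP q (∑ i ∈ s, f i) := fun i => by
  rw [Polynomial.finsetSum_coeff]; exact Finset.dvd_sum fun k hk => h k hk i

/-- All terms of `T_p` are divisible by `p^m` on `I_m`. -/
theorem dvdP_rep (h9 : BComp) (p n m : ℕ) [Fact p.Prime] (F : ℤ_[p][X]) (hF : InI p n m F) :
    (∀ b : ℕ, dvdP ((p : ℤ_[p]) ^ m) (symAct n (repU p b) F)) ∧
      dvdP ((p : ℤ_[p]) ^ m) (symAct n (repV p) F) := by
  obtain ⟨hd, hI⟩ := hF
  constructor
  · intro b
    have e1 : repU p b = (mx 1 * dp p) * !![1, (b : ℤ); 0, 1] := by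
      simp [repU, dp, mx]
    rw [e1, (h9 ℤ_[p] n _ _ F hd).1]
    exact dvdP_symAct n _ (hI 1)
  · have e1 : repV p = (mx mS * dp p) * !![0, 1; -1, 0] := by
      simp [repV, dp, mx, mS]
    rw [e1, (h9 ℤ_[p] n _ _ F hd).1]
    exact dvdP_symAct n _ (hI mS)

theorem castSymb_hecke (hM : BMap) (R : Type) [CommRing R] (n l : ℕ) (φ : Vec → Vec → ℤ[X]) :
    castSymb R (heckeSymbFun n l φ) = heckeSymbFun n l (castSymb R φ) := by
  funext r s
  simp only [castSymb, heckeSymbFun, Polynomial.map_add, Polynomial.map_sum]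
  congr 1
  · apply Finset.sum_congr rfl
    intro j _
    exact (hM ℤ R (Int.castRingHom R) n _ _).1
  · exact (hM ℤ R (Int.castRingHom R) n _ _).1

theorem heckeSymbFun_sub {R : Type*} [CommRing R] (n l : ℕ) (φ φ' : Vec → Vec → R[X]) :
    heckeSymbFun n l (φ - φ') = heckeSymbFun n l φ - heckeSymbFun n l φ' := by
  funext r s
  simp only [heckeSymbFun, Pi.sub_apply, symAct_sub', Finset.sum_sub_distrib]
  ring

end BImageAux

open BImageAux H30 in
theorem bImage (h1 : BCountJK) (h2 : BCard) (h3 : BKerI) (h4 : BKerT) (h5 : BProd) (h6 : BDiv)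
    (h7 : BReps) (h8 : BHecke) (h9 : BComp) (h10 : BMap) : BImage := by
  intro p N _ hN hpN
  obtain ⟨C0, hC0, hker⟩ := h3 p
  obtain ⟨-, -, hP1, hP2, -, -, hP3, hP4⟩ := h5 p
  have hp2 : 2 ≤ p := (Fact.out : p.Prime).two_le
  refine ⟨(4 * ((Gamma0 N).index : ℝ) + 1) * (C0 + 2), ?_⟩
  intro n hn s hs r φ hφ hinj
  have hs' : ((p : ℝ) + 1) * s ≤ n := by exact_mod_cast hs
  have hsn : (s : ℝ) ≤ n := by
    have : (0 : ℝ) ≤ p * s := by positivity
    nlinarith
  obtain ⟨hk2, hk3⟩ := hker n s hn hs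
  obtain ⟨hc1, hc2⟩ := h2 p n s hs
  have hkT := (h4 p n s).1 (Ip p n s) (fun f hf => hf.1) (hP1 n s) (hP2 n s)
  have key := h1 p N n (Pn p n) (Ip p n s) (((p : ℝ) + 1) * (s : ℝ) ^ 2 / 2) ((C0 + 2) * (n + 1))
    hN hn (fun f hf => hf.1) le_rfl (hP4 n) (hP2 n s) hc2 (by positivity) (by positivity) (by
      have : Real.logb p ((Ip p n s).relIndex (Pn p n)) - ((p : ℝ) + 1) * (s : ℝ) ^ 2 / 2
          = ((p : ℝ) + 1) * s / 2 := by linarith
      rw [this, abs_of_nonneg (by positivity)]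
      nlinarith [mul_nonneg hC0 (by positivity : (0 : ℝ) ≤ (n : ℝ) + 1),
        (by positivity : (0 : ℝ) ≤ (n : ℝ))]) (by
      refine hk2.trans ?_
      nlinarith [mul_le_mul_of_nonneg_left hsn hC0, (by positivity : (0 : ℝ) ≤ (n : ℝ))]) (by
      refine hk3.trans ?_
      nlinarith [mul_le_mul_of_nonneg_left hsn hC0, (by positivity : (0 : ℝ) ≤ (n : ℝ))]) (by
      refine hkT.trans ?_
      nlinarith [mul_nonneg hC0 (by positivity : (0 : ℝ) ≤ (n : ℝ) + 1),
        (by positivity : (0 : ℝ) ≤ (n : ℝ))])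
    r (fun i => castSymb ℤ_[p] (φ i)) (fun i => castSymb_mem h10 (hφ i) _)
    (fun i a b => (castSymb_mem h10 (hφ i) ℤ_[p]).1 a b) (by
      intro i j hij
      apply hinj
      obtain ⟨g, hg⟩ := h7 N hN
      have hpp : p.Prime := Fact.out
      have hq : ((p : ℤ) ^ s) ≠ 0 := pow_ne_zero _ (by exact_mod_cast hpp.ne_zero)
      obtain ⟨ψ, hψ, hψ'⟩ := h6 N n ((p : ℤ) ^ s) (heckeSymbFun n p (φ i - φ j)) _ g hg hq
        (h8 N n p ℤ hpp hpN _ (Submodule.sub_mem _ (hφ i) (hφ j))) (by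
          intro k
          apply dvdP_cast (p := p)
          have e1 := congrFun (congrFun (castSymb_hecke h10 ℤ_[p] n p (φ i - φ j))
            ((mx (g k)).mulVec c0)) ((mx (g k)).mulVec cI)
          have e2 : ∀ a b : Vec, castSymb ℤ_[p] (φ i - φ j) a b ∈ Ip p n s := by
            intro a b
            have := hij a b
            have e3 : castSymb ℤ_[p] (φ i - φ j) a b
                = castSymb ℤ_[p] (φ i) a b - castSymb ℤ_[p] (φ j) a b := by
              simp [castSymb]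
            rw [e3]
            exact this
          change dvdP _ (castSymb ℤ_[p] (heckeSymbFun n p (φ i - φ j)) _ _)
          rw [e1]
          simp only [heckeSymbFun]
          apply dvdP_add
          · apply dvdP_sum
            intro b _
            exact (dvdP_rep h9 p n s _ (e2 _ _)).1 b
          · exact (dvdP_rep h9 p n s _ (e2 _ _)).2)
      refine ⟨ψ, hψ, ?_⟩
      rw [← heckeSymbFun_sub]
      exact hψ')
  refine key.trans (le_of_eq ?_)
  ring

end Gou
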