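import Pool.Agent.Work.MP_602313_nt.Bd.B01

/-!
B0a: composition law of the action.
-/

open scoped MatrixGroups Polynomial
open CongruenceSubgroup

noncomputable section

namespace Gou

namespace BCompAux

variable {R : Type} [CommRing R]

/-- First linear form. -/
def l1 (R : Type) [CommRing R] (g : Matrix (Fin 2) (Fin 2) ℤ) : R[X] :=
  Polynomial.C (g 0 0 : R) * Polynomial.X + Polynomial.C (g 0 1 : R)

/-- Second linear form. -/
def l2 (R : Type) [CommRing R] (g : Matrix (Fin 2) (Fin 2) ℤ) : R[X] :=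
  Polynomial.C (g 1 0 : R) * Polynomial.X + Polynomial.C (g 1 1 : R)

lemma symAct_eq (n : ℕ) (g : Matrix (Fin 2) (Fin 2) ℤ) (f : R[X]) :
    symAct n g f = ∑ i ∈ Finset.range (n + 1), Polynomial.C (f.coeff i) * l1 R g ^ i * l2 R g ^ (n - i) :=
  rfl

lemma natDegree_l1 (g : Matrix (Fin 2) (Fin 2) ℤ) : (l1 R g).natDegree ≤ 1 :=
  Polynomial.natDegree_linear_le

lemma natDegree_l2 (g : Matrix (Fin 2) (Fin 2) ℤ) : (l2 R g).natDegree ≤ 1 :=
  Polynomial.natDegree_linear_le

lemma natDegree_pow_le' {f : R[X]} (hf : f.natDegree ≤ 1) (i : ℕ) : (f ^ i).natDegree ≤ i := by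
  refine Polynomial.natDegree_pow_le.trans ?_
  calc i * f.natDegree ≤ i * 1 := Nat.mul_le_mul_left _ hf
    _ = i := mul_one i

lemma natDegree_symAct (n : ℕ) (g : Matrix (Fin 2) (Fin 2) ℤ) (f : R[X]) :
    (symAct n g f).natDegree ≤ n := by
  rw [symAct_eq]
  apply Polynomial.natDegree_sum_le_of_forall_le
  intro i hi
  have hi' : i ≤ n := Nat.lt_succ_iff.1 (Finset.mem_range.1 hi)
  refine Polynomial.natDegree_mul_le.trans ?_
  have h1 : (Polynomial.C (f.coeff i) * l1 R g ^ i).natDegree ≤ i :=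
    (Polynomial.natDegree_C_mul_le _ _).trans (natDegree_pow_le' (natDegree_l1 g) i)
  have h2 := natDegree_pow_le' (natDegree_l2 (R := R) g) (n - i)
  omega

lemma symAct_sum {ι : Type*} (s : Finset ι) (n : ℕ) (g : Matrix (Fin 2) (Fin 2) ℤ) (f : ι → R[X]) :
    symAct n g (∑ i ∈ s, f i) = ∑ i ∈ s, symAct n g (f i) := by
  classical
  induction s using Finset.induction_on with
  | empty => simp [symAct_zero]
  | insert a s ha ih => rw [Finset.sum_insert ha, Finset.sum_insert ha, symAct_add, ih]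

lemma symAct_pow (hm : BMul) (h : Matrix (Fin 2) (Fin 2) ℤ) {f : R[X]} (hf : f.natDegree ≤ 1)
    (i : ℕ) : symAct i h (f ^ i) = symAct 1 h f ^ i := by
  induction i with
  | zero =>
    simp only [pow_zero, symAct, zero_add, Finset.range_one, Finset.sum_singleton,
      Polynomial.coeff_one_zero, map_one, Nat.sub_zero, mul_one]
  | succ i ih =>
    rw [pow_succ, hm R i 1 h _ _ (natDegree_pow_le' hf i) hf, ih, pow_succ]

lemma symAct_lin (h : Matrix (Fin 2) (Fin 2) ℤ) (u v : R) :
    symAct 1 h (Polynomial.C u * Polynomial.X + Polynomial.C v) =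
      Polynomial.C u * l1 R h + Polynomial.C v * l2 R h := by
  simp only [symAct, l1, l2, Finset.sum_range_succ, Finset.range_zero, Finset.sum_empty]
  have h0 : (Polynomial.C u * Polynomial.X + Polynomial.C v : R[X]).coeff 0 = v := by simp
  have h1 : (Polynomial.C u * Polynomial.X + Polynomial.C v : R[X]).coeff 1 = u := by
    simp [Polynomial.coeff_C]
  rw [h0, h1]
  simp only [pow_zero, pow_one, mul_one, zero_add, Nat.sub_self, Nat.sub_zero]
  ring

lemma symAct_l1 (g h : Matrix (Fin 2) (Fin 2) ℤ) : symAct 1 h (l1 R g) = l1 R (g * h) := by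
  rw [l1, symAct_lin]
  simp only [l1, l2, Matrix.mul_apply, Fin.sum_univ_two, Int.cast_add, Int.cast_mul,
    Polynomial.C_add, Polynomial.C_mul]
  ring

lemma symAct_l2 (g h : Matrix (Fin 2) (Fin 2) ℤ) : symAct 1 h (l2 R g) = l2 R (g * h) := by
  rw [l2, symAct_lin]
  simp only [l1, l2, Matrix.mul_apply, Fin.sum_univ_two, Int.cast_add, Int.cast_mul,
    Polynomial.C_add, Polynomial.C_mul]
  ring

end BCompAux

open BCompAux in
theorem bComp (hm : BMul) : BComp := by
  intro R _ n g h f hf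
  refine ⟨?_, natDegree_symAct n g f, ?_⟩
  · rw [symAct_eq n g f, symAct_sum, symAct_eq n (g * h) f]
    refine Finset.sum_congr rfl fun i hi => ?_
    have hi' : i ≤ n := Nat.lt_succ_iff.1 (Finset.mem_range.1 hi)
    have e1 : Polynomial.C (f.coeff i) * l1 R g ^ i * l2 R g ^ (n - i) =
        (f.coeff i) • (l1 R g ^ i * l2 R g ^ (n - i)) := by
      rw [Polynomial.smul_eq_C_mul, mul_assoc]
    have e2 : symAct n h (l1 R g ^ i * l2 R g ^ (n - i)) =
        l1 R (g * h) ^ i * l2 R (g * h) ^ (n - i) := by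
      have := hm R i (n - i) h (l1 R g ^ i) (l2 R g ^ (n - i))
        (natDegree_pow_le' (natDegree_l1 g) i) (natDegree_pow_le' (natDegree_l2 g) (n - i))
      rw [Nat.add_sub_cancel' hi'] at this
      rw [this, symAct_pow hm h (natDegree_l1 g), symAct_pow hm h (natDegree_l2 g), symAct_l1,
        symAct_l2]
    rw [e1, symAct_smul, e2, Polynomial.smul_eq_C_mul, mul_assoc]
  · rw [symAct]
    simp only [Matrix.one_apply_eq, Int.cast_one, map_one, one_mul,
      Matrix.one_apply_ne (show (0 : Fin 2) ≠ 1 by decide),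
      Matrix.one_apply_ne (show (1 : Fin 2) ≠ 0 by decide), Int.cast_zero, map_zero, add_zero,
      zero_mul, zero_add, one_pow, mul_one]
    exact (Polynomial.as_sum_range_C_mul_X_pow' _ (Nat.lt_succ_iff.2 hf)).symm

end Gou
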